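import Pool.Agent.helper65.GD.Spec

/-!
# Row CO4: the derivative of a power series
-/

set_option autoImplicit false

namespace Pool.Agent.GD

open Finset Metric Filter Topology

theorem CO4_summable (f : ℂ → ℂ) (a : ℕ → ℂ) (h : Ser a f) (r : ℝ) (hr0 : 0 ≤ r) (hr : r < 1) :
    Summable fun n => ‖a n‖ * r ^ n := by
  obtain ⟨s, hs1, hs2⟩ : ∃ s, r < s ∧ s < 1 := exists_between hr
  have hs0 : 0 < s := lt_of_le_of_lt hr0 hs1
  have h1 := (h (s : ℂ) (by
    rw [mem_ball_zero_iff, Complex.norm_real, Real.norm_eq_abs, abs_of_pos hs0]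
    exact hs2)).summable.tendsto_atTop_zero
  obtain ⟨C, hC⟩ := (h1.norm.bddAbove_range)
  have hC' : ∀ n, ‖a n‖ * s ^ n ≤ C := by
    intro n
    have h2 := hC ⟨n, rfl⟩
    simp only [norm_mul, norm_pow, Complex.norm_real, Real.norm_eq_abs, abs_of_pos hs0] at h2
    exact h2
  have hq0 : 0 ≤ r / s := div_nonneg hr0 hs0.le
  have hq1 : r / s < 1 := (div_lt_one hs0).2 hs1
  refine Summable.of_nonneg_of_le (fun n => by positivity) (fun n => ?_)
    ((summable_geometric_of_lt_one hq0 hq1).mul_left C)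
  have h3 : ‖a n‖ * r ^ n = (‖a n‖ * s ^ n) * (r / s) ^ n := by
    rw [div_pow]
    field_simp
  rw [h3]
  exact mul_le_mul_of_nonneg_right (hC' n) (pow_nonneg hq0 n)

/-- Row CO4. -/
theorem CO4 : CO4_stmt := by
  intro f a h
  have hloc : ∀ z ∈ ball (0 : ℂ) 1, ∃ r : ℝ, 0 ≤ r ∧ r < 1 ∧ z ∈ ball (0 : ℂ) r := by
    intro z hz
    rw [mem_ball_zero_iff] at hz
    obtain ⟨r, h1, h2⟩ := exists_between hz
    exact ⟨r, (norm_nonneg z).trans h1.le, h2, by rwa [mem_ball_zero_iff]⟩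
  have hbound : ∀ r : ℝ, ∀ (n : ℕ) (w : ℂ), w ∈ ball (0 : ℂ) r →
      ‖a n * w ^ n‖ ≤ ‖a n‖ * r ^ n := by
    intro r n w hw
    rw [mem_ball_zero_iff] at hw
    rw [norm_mul, norm_pow]
    exact mul_le_mul_of_nonneg_left (pow_le_pow_left₀ (norm_nonneg w) hw.le n) (norm_nonneg _)
  have heq : ∀ z ∈ ball (0 : ℂ) 1, ∀ r : ℝ, r < 1 → z ∈ ball (0 : ℂ) r →
      f =ᶠ[𝓝 z] fun w => ∑' n, a n * w ^ n := by
    intro z _ r hr hz
    refine Filter.eventuallyEq_of_mem (isOpen_ball.mem_nhds hz) fun w hw => ?_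
    exact ((h w (ball_subset_ball hr.le hw)).tsum_eq).symm
  constructor
  · intro z hz
    obtain ⟨r, hr0, hr1, hzr⟩ := hloc z hz
    have h1 := Complex.differentiableOn_tsum_of_summable_norm (F := fun n w => a n * w ^ n)
      (CO4_summable f a h r hr0 hr1) (U := ball (0 : ℂ) r) (fun n => by fun_prop) isOpen_ball
      (hbound r)
    have h2 := h1.differentiableAt (isOpen_ball.mem_nhds hzr)
    exact ((heq z hz r hr1 hzr).differentiableAt_iff.2 h2).differentiableWithinAt
  · intro z hz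
    obtain ⟨r, hr0, hr1, hzr⟩ := hloc z hz
    have h1 := Complex.hasSum_deriv_of_summable_norm (F := fun n w => a n * w ^ n)
      (CO4_summable f a h r hr0 hr1) (U := ball (0 : ℂ) r) (fun n => by fun_prop) isOpen_ball
      (hbound r) hzr
    have h2 := h1.mul_left z
    rw [← (heq z hz r hr1 hzr).deriv_eq] at h2
    have h3 : (fun n : ℕ => z * deriv (fun w : ℂ => a n * w ^ n) z) =
        fun n : ℕ => (n : ℂ) * a n * z ^ n := by
      funext n
      have h4 : HasDerivAt (fun w : ℂ => a n * w ^ n) (a n * ((n : ℂ) * z ^ (n - 1))) z :=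
        (hasDerivAt_pow n z).const_mul (a n)
      rw [h4.deriv]
      rcases n with _ | n
      · simp
      · rw [Nat.add_sub_cancel, pow_succ]
        ring
    rw [h3] at h2
    exact h2

end Pool.Agent.GD
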